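import Pool.Agent.Ram1.Proc

/-!
# Rounds: covering almost all earlier neighbours by few independent sets (MP_4e6f39_co)

From the one-colour process (`Sys`) to `t` independent sets which leave fewer than `r` uncovered
earlier neighbours at every vertex; the sets are chosen one by one with an exponential potential.
-/

set_option autoImplicit false

namespace Pool.Agent.Ram1

open Finset

/-- `exp (-x) ≤ 1 - x + x ^ 2 / 2` for `x ≥ 0`. -/
lemma exp_neg_le_quad {x : ℝ} (hx : 0 ≤ x) : Real.exp (-x) ≤ 1 - x + x ^ 2 / 2 := by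
  have key : ∀ y : ℝ, HasDerivAt (fun t : ℝ => 1 - t + t ^ 2 / 2 - Real.exp (-t))
      (-1 + y + Real.exp (-y)) y := by
    intro y
    have h1 : HasDerivAt (fun t : ℝ => Real.exp (-t)) (-Real.exp (-y)) y := by
      have := (Real.hasDerivAt_exp (-y)).comp y (hasDerivAt_neg y)
      simpa [Function.comp_def] using this
    have h2 : HasDerivAt (fun t : ℝ => t ^ 2 / 2) y y :=
      ((hasDerivAt_pow 2 y).div_const 2).congr_deriv (by norm_num)
    exact ((((hasDerivAt_const y (1 : ℝ)).sub (hasDerivAt_id y)).add h2).sub h1).congr_deriv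
      (by ring)
  have mono : MonotoneOn (fun t : ℝ => 1 - t + t ^ 2 / 2 - Real.exp (-t)) (Set.Ici 0) := by
    apply monotoneOn_of_deriv_nonneg (convex_Ici 0)
    · exact fun y _ => (key y).continuousAt.continuousWithinAt
    · exact fun y _ => (key y).differentiableAt.differentiableWithinAt
    · intro y _
      rw [(key y).deriv]
      have := Real.add_one_le_exp (-y)
      linarith
  have h0 := mono (Set.mem_Ici.mpr le_rfl) (Set.mem_Ici.mpr hx) hx
  simp at h0
  linarith

/-- The invariant of the process: the chosen set is an independent subset of `range n`. -/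
def Good (P : ℕ → Finset ℕ) (n : ℕ) (I : Finset ℕ) : Prop :=
  I ⊆ range n ∧ ∀ v ∈ I, ∀ u ∈ P v, u ∉ I

variable {P : ℕ → Finset ℕ} {W δ : ℝ} {p : ℕ → Finset ℕ → ℝ}

lemma Good.zero : Good P 0 ∅ := ⟨by simp, by simp⟩

lemma Good.skip (n : ℕ) (I : Finset ℕ) (h : Good P n I) : Good P (n + 1) I :=
  ⟨h.1.trans (Finset.range_mono (Nat.le_succ n)), h.2⟩

lemma Good.take (S : Sys P W δ p) (n : ℕ) (I : Finset ℕ) (h : Good P n I) (h0 : p n I ≠ 0) :
    Good P (n + 1) (insert n I) := by
  refine ⟨?_, ?_⟩
  · intro x hx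
    rcases Finset.mem_insert.mp hx with rfl | hx
    · simp
    · have := Finset.mem_range.mp (h.1 hx)
      exact Finset.mem_range.mpr (by omega)
  · intro v hv u hu hmem
    rcases Finset.mem_insert.mp hv with rfl | hv
    · have hlt := Finset.mem_range.mp (S.sub _ hu)
      rcases Finset.mem_insert.mp hmem with rfl | hmem
      · exact absurd hlt (lt_irrefl _)
      · exact h0 (S.zero _ _ ⟨u, hu, hmem⟩)
    · have hlt := Finset.mem_range.mp (S.sub _ hu)
      have hvn := Finset.mem_range.mp (h.1 hv)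
      rcases Finset.mem_insert.mp hmem with rfl | hmem
      · omega
      · exact h.2 v hv u hu hmem

/-- Monotonicity of the expectation, plain version. -/
lemma Sys.Ex_mono_plain (S : Sys P W δ p) (n : ℕ) (f g : Finset ℕ → ℝ) (h : ∀ I, f I ≤ g I) :
    Ex p n f ≤ Ex p n g :=
  Ex_mono p S.nonneg S.le_one (fun _ _ => True) trivial (fun _ _ _ => trivial)
    (fun _ _ _ _ => trivial) n f g (fun I _ => h I)

/-- The first moment from below. -/
lemma Sys.first_ge (n : ℕ)
    (hmean : ∀ v, v < n → δ / 2 ≤ Ex p n (fun I => if v ∈ I then 1 else 0))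
    (T : Finset ℕ) (hT : T ⊆ range n) :
    T.card * (δ / 2) ≤ Ex p n (fun I => ((T ∩ I).card : ℝ)) := by
  have h1 : (fun I : Finset ℕ => ((T ∩ I).card : ℝ)) =
      fun I => ∑ v ∈ T, (if v ∈ I then (1 : ℝ) else 0) := by
    funext I
    rw [← Finset.sum_filter, Finset.sum_const, Finset.filter_mem_eq_inter]
    simp
  rw [h1, Ex_sum p n T (fun v I => if v ∈ I then (1 : ℝ) else 0)]
  calc T.card * (δ / 2) = ∑ _v ∈ T, δ / 2 := by rw [Finset.sum_const, nsmul_eq_mul]
    _ ≤ _ := Finset.sum_le_sum (fun v hv => hmean v (Finset.mem_range.mp (hT hv)))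

/-- One round, one vertex. -/
theorem Sys.one_step (S : Sys P W δ p) (n : ℕ) (d r : ℝ) (hd : 0 < d) (hr : 0 < r)
    (hmean : ∀ v, v < n → δ / 2 ≤ Ex p n (fun I => if v ∈ I then 1 else 0))
    (T : Finset ℕ) (hT : T ⊆ range n) (h1 : r ≤ T.card) (h2 : (T.card : ℝ) ≤ d) (m sg : ℝ)
    (hm : m = r * δ / 2) (hsg : sg = d * δ * W + (d * δ * W) ^ 2) :
    Ex p n (fun I => Real.exp (-(m / sg * (T ∩ I).card))) ≤ 1 - m ^ 2 / (2 * sg) := by
  have hW0 : 0 < W := lt_of_lt_of_le one_pos S.one_le
  have hx0 : 0 < d * δ * W := mul_pos (mul_pos hd S.pos) hW0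
  have hsg0 : 0 < sg := by rw [hsg]; positivity
  have hm0 : 0 < m := by rw [hm]; have := S.pos; positivity
  have hs0 : 0 ≤ m / sg := (div_pos hm0 hsg0).le
  set s := m / sg with hs
  have hle : Ex p n (fun I => Real.exp (-(s * (T ∩ I).card))) ≤
      Ex p n (fun I => 1 + ((-s) * ((T ∩ I).card : ℝ) + s ^ 2 / 2 * ((T ∩ I).card : ℝ) ^ 2)) := by
    apply S.Ex_mono_plain
    intro I
    have := exp_neg_le_quad (mul_nonneg hs0 (Nat.cast_nonneg (α := ℝ) (T ∩ I).card))
    refine this.trans (le_of_eq ?_)
    ring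
  rw [Ex_add p n (fun _ => 1) (fun I => (-s) * ((T ∩ I).card : ℝ) +
    s ^ 2 / 2 * ((T ∩ I).card : ℝ) ^ 2), Ex_const, Ex_add p n (fun I => (-s) * ((T ∩ I).card : ℝ))
    (fun I => s ^ 2 / 2 * ((T ∩ I).card : ℝ) ^ 2), Ex_mul, Ex_mul] at hle
  have hf := Sys.first_ge (p := p) (δ := δ) n hmean T hT
  have hmf : m ≤ Ex p n (fun I => ((T ∩ I).card : ℝ)) := by
    refine le_trans ?_ hf
    rw [hm]
    have := mul_le_mul_of_nonneg_right h1 (half_pos S.pos).le
    linarith
  have hsec := S.second_le T n
  have hTn : T ∩ range n = T := Finset.inter_eq_left.mpr hT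
  rw [hTn] at hsec
  have hsecm : Ex p n (fun I => ((T ∩ I).card : ℝ) ^ 2) ≤ sg := by
    refine hsec.trans ?_
    have hδW : 0 ≤ δ * W := (mul_pos S.pos hW0).le
    have hb : δ * W * T.card ≤ d * δ * W := by
      have := mul_le_mul_of_nonneg_left h2 hδW
      linarith
    have hb0 : 0 ≤ δ * W * T.card := mul_nonneg hδW (Nat.cast_nonneg _)
    rw [hsg]
    exact add_le_add hb (pow_le_pow_left₀ hb0 hb 2)
  have e1 := mul_le_mul_of_nonneg_left hmf hs0
  have e2 := mul_le_mul_of_nonneg_left hsecm (show 0 ≤ s ^ 2 / 2 by positivity)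
  have e3 : s * m = m ^ 2 / sg := by rw [hs]; ring
  have e4 : s ^ 2 / 2 * sg = m ^ 2 / (2 * sg) := by
    rw [hs]; field_simp
  have e5 : m ^ 2 / sg = 2 * (m ^ 2 / (2 * sg)) := by field_simp
  linarith

/-- The potential of an uncovered set `U`. -/
noncomputable def pot (P : ℕ → Finset ℕ) (n : ℕ) (r s : ℝ) (U : Finset ℕ) : ℝ :=
  ∑ v ∈ range n, if r ≤ ((P v ∩ U).card : ℝ) then Real.exp (s * ((P v ∩ U).card : ℝ)) else 0

lemma pot_nonneg (P : ℕ → Finset ℕ) (n : ℕ) (r s : ℝ) (U : Finset ℕ) : 0 ≤ pot P n r s U := by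
  unfold pot
  refine Finset.sum_nonneg (fun v _ => ?_)
  split_ifs
  · exact (Real.exp_pos _).le
  · exact le_rfl

/-- One round: a good independent set exists. -/
lemma Sys.one_round (S : Sys P W δ p) (n : ℕ) (d r : ℝ) (hd : 0 < d) (hr : 0 < r) (m sg : ℝ)
    (hm : m = r * δ / 2) (hsg : sg = d * δ * W + (d * δ * W) ^ 2)
    (hmean : ∀ v, v < n → δ / 2 ≤ Ex p n (fun I => if v ∈ I then 1 else 0))
    (hP : ∀ v, v < n → ((P v).card : ℝ) ≤ d) (U : Finset ℕ) :
    ∃ I, Good P n I ∧ pot P n r (m / sg) (U \ I) ≤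
      (1 - m ^ 2 / (2 * sg)) * pot P n r (m / sg) U := by
  have hW0 : 0 < W := lt_of_lt_of_le one_pos S.one_le
  have hx0 : 0 < d * δ * W := mul_pos (mul_pos hd S.pos) hW0
  have hsg0 : 0 < sg := by rw [hsg]; positivity
  have hm0 : 0 < m := by rw [hm]; have := S.pos; positivity
  have hs0 : 0 ≤ m / sg := (div_pos hm0 hsg0).le
  obtain ⟨I, hI, hle⟩ := Ex_exists p S.nonneg S.le_one (Good P) Good.zero Good.skip
    (Good.take S) n (fun I => pot P n r (m / sg) (U \ I))
  refine ⟨I, hI, hle.trans ?_⟩
  unfold pot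
  rw [Ex_sum p n (range n) (fun v I => if r ≤ ((P v ∩ (U \ I)).card : ℝ) then
    Real.exp (m / sg * ((P v ∩ (U \ I)).card : ℝ)) else 0), Finset.mul_sum]
  refine Finset.sum_le_sum (fun v hv => ?_)
  have hvn := Finset.mem_range.mp hv
  have hsd : ∀ J : Finset ℕ, P v ∩ (U \ J) = (P v ∩ U) \ J := by
    intro J; ext x; simp [and_assoc]
  simp_rw [hsd]
  set T := P v ∩ U with hT
  by_cases hh : r ≤ (T.card : ℝ)
  · rw [if_pos hh]
    have hTd : (T.card : ℝ) ≤ d := by
      refine le_trans ?_ (hP v hvn)
      exact_mod_cast Finset.card_le_card Finset.inter_subset_left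
    have hTn : T ⊆ range n := by
      intro x hx
      have h1 := Finset.mem_range.mp (S.sub v (Finset.mem_inter.mp hx).1)
      exact Finset.mem_range.mpr (h1.trans hvn)
    have hstep := S.one_step n d r hd hr hmean T hTn hh hTd m sg hm hsg
    have hbd : Ex p n (fun J => if r ≤ (((T \ J).card : ℕ) : ℝ) then
        Real.exp (m / sg * ((T \ J).card : ℝ)) else 0) ≤
        Ex p n (fun J => Real.exp (m / sg * T.card) *
          Real.exp (-(m / sg * (T ∩ J).card))) := by
      apply S.Ex_mono_plain
      intro J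
      have h2 : ((T \ J).card : ℝ) = T.card - (T ∩ J).card := by
        have := Finset.card_sdiff_add_card_inter T J
        rw [← this]; push_cast; ring
      have h3 : Real.exp (m / sg * ((T \ J).card : ℝ)) =
          Real.exp (m / sg * T.card) * Real.exp (-(m / sg * (T ∩ J).card)) := by
        rw [← Real.exp_add, h2]; congr 1; ring
      rw [← h3]
      split_ifs
      · exact le_rfl
      · exact (Real.exp_pos _).le
    rw [Ex_mul] at hbd
    refine hbd.trans ?_
    rw [mul_comm]
    exact mul_le_mul_of_nonneg_right hstep (Real.exp_pos _).le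
  · rw [if_neg hh, mul_zero]
    apply le_of_eq
    have h0 : (fun J : Finset ℕ => if r ≤ (((T \ J).card : ℕ) : ℝ) then
        Real.exp (m / sg * ((T \ J).card : ℝ)) else 0) = fun _ => 0 := by
      funext J
      rw [if_neg]
      intro h'
      apply hh
      refine h'.trans ?_
      exact_mod_cast Finset.card_le_card Finset.sdiff_subset
    rw [h0, Ex_const]

/-- `t` independent sets that leave fewer than `r` uncovered earlier neighbours everywhere. -/
theorem Sys.cover (S : Sys P W δ p) (n t : ℕ) (d r m sg : ℝ) (hd : 0 < d) (hr : 0 < r)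
    (hm : m = r * δ / 2) (hsg : sg = d * δ * W + (d * δ * W) ^ 2)
    (hmean : ∀ v, v < n → δ / 2 ≤ Ex p n (fun I => if v ∈ I then 1 else 0))
    (hP : ∀ v, v < n → ((P v).card : ℝ) ≤ d)
    (ht : n * Real.exp (m / sg * d) * (1 - m ^ 2 / (2 * sg)) ^ t < 1)
    (h01 : m ^ 2 / (2 * sg) ≤ 1) :
    ∃ I : ℕ → Finset ℕ, (∀ i, i < t → ∀ v ∈ I i, ∀ u ∈ P v, u ∉ I i) ∧
      ∀ v, v < n → (((P v).filter (fun u => ∀ i, i < t → u ∉ I i)).card : ℝ) < r := by
  have hW0 : 0 < W := lt_of_lt_of_le one_pos S.one_le
  have hx0 : 0 < d * δ * W := mul_pos (mul_pos hd S.pos) hW0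
  have hsg0 : 0 < sg := by rw [hsg]; positivity
  have hm0 : 0 < m := by rw [hm]; have := S.pos; positivity
  have hs0 : 0 ≤ m / sg := (div_pos hm0 hsg0).le
  have hρ : 0 ≤ 1 - m ^ 2 / (2 * sg) := by linarith
  have key : ∀ t : ℕ, ∃ I : ℕ → Finset ℕ, (∀ i, i < t → ∀ v ∈ I i, ∀ u ∈ P v, u ∉ I i) ∧
      pot P n r (m / sg) ((range n).filter (fun u => ∀ i, i < t → u ∉ I i)) ≤
        (1 - m ^ 2 / (2 * sg)) ^ t * pot P n r (m / sg) (range n) := by
    intro t
    induction t with
    | zero => exact ⟨fun _ => ∅, by simp, by simp⟩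
    | succ t ih =>
      obtain ⟨I, hI1, hI2⟩ := ih
      set U := (range n).filter (fun u => ∀ i, i < t → u ∉ I i) with hU
      obtain ⟨J, hJ, hpot⟩ := S.one_round n d r hd hr m sg hm hsg hmean hP U
      refine ⟨Function.update I t J, ?_, ?_⟩
      · intro i hi v hv u hu
        by_cases hit : i = t
        · subst hit
          rw [Function.update_self] at hv ⊢
          exact hJ.2 v hv u hu
        · rw [Function.update_of_ne hit] at hv ⊢
          exact hI1 i (by omega) v hv u hu
      · have hUJ : (range n).filter (fun u => ∀ i, i < t + 1 → u ∉ Function.update I t J i) =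
            U \ J := by
          ext u
          simp only [hU, Finset.mem_filter, Finset.mem_sdiff]
          constructor
          · rintro ⟨h1, h2⟩
            refine ⟨⟨h1, ?_⟩, ?_⟩
            · intro i hi
              have := h2 i (by omega)
              rwa [Function.update_of_ne (by omega)] at this
            · have := h2 t (by omega)
              rwa [Function.update_self] at this
          · rintro ⟨⟨h1, h2⟩, h3⟩
            refine ⟨h1, fun i hi => ?_⟩
            by_cases hit : i = t
            · subst hit; rwa [Function.update_self]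
            · rw [Function.update_of_ne hit]
              exact h2 i (by omega)
        rw [hUJ]
        refine hpot.trans ?_
        rw [pow_succ' (1 - m ^ 2 / (2 * sg)) t, mul_assoc]
        exact mul_le_mul_of_nonneg_left hI2 hρ
  obtain ⟨I, hI1, hI2⟩ := key t
  refine ⟨I, hI1, ?_⟩
  have h0 : pot P n r (m / sg) (range n) ≤ n * Real.exp (m / sg * d) := by
    unfold pot
    calc (∑ v ∈ range n, if r ≤ ((P v ∩ range n).card : ℝ) then
          Real.exp (m / sg * ((P v ∩ range n).card : ℝ)) else 0)
        ≤ ∑ _v ∈ range n, Real.exp (m / sg * d) := by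
          refine Finset.sum_le_sum (fun v hv => ?_)
          split_ifs
          · apply Real.exp_le_exp.mpr
            apply mul_le_mul_of_nonneg_left _ hs0
            refine le_trans ?_ (hP v (Finset.mem_range.mp hv))
            exact_mod_cast Finset.card_le_card Finset.inter_subset_left
          · exact (Real.exp_pos _).le
      _ = n * Real.exp (m / sg * d) := by
          rw [Finset.sum_const, Finset.card_range, nsmul_eq_mul]
  have h1 : pot P n r (m / sg) ((range n).filter (fun u => ∀ i, i < t → u ∉ I i)) < 1 := by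
    refine lt_of_le_of_lt hI2 (lt_of_le_of_lt (mul_le_mul_of_nonneg_left h0 (pow_nonneg hρ t)) ?_)
    refine lt_of_eq_of_lt ?_ ht
    ring
  intro v hv
  by_contra hcon
  push Not at hcon
  have hset : (P v).filter (fun u => ∀ i, i < t → u ∉ I i) =
      P v ∩ (range n).filter (fun u => ∀ i, i < t → u ∉ I i) := by
    ext u
    simp only [Finset.mem_filter, Finset.mem_inter]
    constructor
    · rintro ⟨h2, h3⟩
      have := Finset.mem_range.mp (S.sub v h2)
      exact ⟨h2, Finset.mem_range.mpr (this.trans hv), h3⟩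
    · rintro ⟨h2, _, h3⟩
      exact ⟨h2, h3⟩
  rw [hset] at hcon
  have h3 : (1 : ℝ) ≤ pot P n r (m / sg) ((range n).filter (fun u => ∀ i, i < t → u ∉ I i)) := by
    unfold pot
    set U := (range n).filter (fun u => ∀ i, i < t → u ∉ I i) with hU
    calc (1 : ℝ) ≤ (if r ≤ ((P v ∩ U).card : ℝ) then
            Real.exp (m / sg * ((P v ∩ U).card : ℝ)) else 0) := by
          rw [if_pos hcon]
          apply Real.one_le_exp
          positivity
      _ ≤ _ := by
          refine Finset.single_le_sum (f := fun v => (if r ≤ ((P v ∩ U).card : ℝ) then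
            Real.exp (m / sg * ((P v ∩ U).card : ℝ)) else 0))
            (fun w _ => ?_) (Finset.mem_range.mpr hv)
          split_ifs
          · exact (Real.exp_pos _).le
          · exact le_rfl
  linarith

/-- Covered vertices get the index of a set, the others are coloured greedily. -/
theorem colouring (n t : ℕ) (r : ℕ) (P : ℕ → Finset ℕ) (hP : ∀ v, P v ⊆ range v)
    (I : ℕ → Finset ℕ) (h1 : ∀ i, i < t → ∀ v ∈ I i, ∀ u ∈ P v, u ∉ I i)
    (h2 : ∀ v, v < n → ((P v).filter (fun u => ∀ i, i < t → u ∉ I i)).card < r) :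
    ∃ f : ℕ → ℕ, (∀ v, v < n → f v < t + r) ∧ ∀ v, v < n → ∀ u ∈ P v, f u ≠ f v := by
  classical
  -- greedy colouring of the uncovered vertices
  have key : ∀ m : ℕ, m ≤ n → ∃ c : ℕ → ℕ, (∀ v, v < m → c v < r) ∧
      ∀ v, v < m → (∀ i, i < t → v ∉ I i) → ∀ u ∈ P v, (∀ i, i < t → u ∉ I i) → c u ≠ c v := by
    intro m
    induction m with
    | zero => intro _; exact ⟨fun _ => 0, by simp, by simp⟩
    | succ m ih =>
      intro hmn
      obtain ⟨c, hc1, hc2⟩ := ih (by omega)
      set A := ((P m).filter (fun u => ∀ i, i < t → u ∉ I i)).image c with hA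
      have hAc : A.card < r := lt_of_le_of_lt Finset.card_image_le (h2 m (by omega))
      have hex : ∃ k ∈ Finset.range r, k ∉ A := by
        by_contra hno
        push Not at hno
        have hsub : Finset.range r ⊆ A := fun k hk => hno k hk
        have := Finset.card_le_card hsub
        rw [Finset.card_range] at this
        omega
      obtain ⟨k, hk1, hk2⟩ := hex
      refine ⟨Function.update c m k, ?_, ?_⟩
      · intro v hv
        by_cases hvm : v = m
        · subst hvm; simpa using hk1
        · rw [Function.update_of_ne hvm]; exact hc1 v (by omega)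
      · intro v hv hvU u hu huU
        have huv := Finset.mem_range.mp (hP v hu)
        by_cases hvm : v = m
        · subst hvm
          rw [Function.update_self, Function.update_of_ne (by omega)]
          intro hcu
          apply hk2
          rw [hA, Finset.mem_image]
          exact ⟨u, Finset.mem_filter.mpr ⟨hu, huU⟩, hcu⟩
        · rw [Function.update_of_ne hvm, Function.update_of_ne (by omega)]
          exact hc2 v (by omega) hvU u hu huU
  obtain ⟨c, hc1, hc2⟩ := key n le_rfl
  -- the index of a covering set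
  have hidx : ∀ v, ¬ (∀ i, i < t → v ∉ I i) → ∃ i, i < t ∧ v ∈ I i := by
    intro v hv
    push Not at hv
    exact hv
  set f : ℕ → ℕ := fun v => if hv : ∀ i, i < t → v ∉ I i then t + c v else (hidx v hv).choose
    with hf
  have hf1 : ∀ v, (hv : ∀ i, i < t → v ∉ I i) → f v = t + c v := by
    intro v hv
    simp only [hf]
    rw [dif_pos hv]
  have hf2 : ∀ v, ¬ (∀ i, i < t → v ∉ I i) → f v < t ∧ v ∈ I (f v) := by
    intro v hv
    simp only [hf]
    rw [dif_neg hv]
    exact (hidx v hv).choose_spec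
  refine ⟨f, ?_, ?_⟩
  · intro v hv
    by_cases hvU : ∀ i, i < t → v ∉ I i
    · rw [hf1 v hvU]
      have := hc1 v hv
      omega
    · have := (hf2 v hvU).1
      omega
  · intro v hv u hu heq
    by_cases hvU : ∀ i, i < t → v ∉ I i <;> by_cases huU : ∀ i, i < t → u ∉ I i
    · rw [hf1 v hvU, hf1 u huU] at heq
      exact hc2 v hv hvU u hu huU (by omega)
    · rw [hf1 v hvU] at heq
      have := (hf2 u huU).1
      omega
    · rw [hf1 u huU] at heq
      have := (hf2 v hvU).1
      omega
    · have h3 := hf2 u huU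
      have h4 := hf2 v hvU
      rw [heq] at h3
      exact h1 (f v) h4.1 v h4.2 u hu h3.2

end Pool.Agent.Ram1
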