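import Mathlib

/-!
# Degenerate orders
-/

set_option autoImplicit false

namespace Pool.Agent.Ram1

open Finset
open scoped Classical

/-- If every nonempty vertex set contains a vertex with at most `d` neighbours in it, the vertices
can be numbered so that every vertex has at most `d` earlier neighbours. -/
theorem order {V : Type} [Fintype V] (F : SimpleGraph V) (d : ℕ)
    (h : ∀ U : Finset V, U.Nonempty → ∃ u ∈ U, (U.filter (fun w => F.Adj u w)).card ≤ d) :
    ∃ e : V ≃ Fin (Fintype.card V),
      ∀ v, (univ.filter (fun u => F.Adj v u ∧ e u < e v)).card ≤ d := by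
  have key : ∀ (n : ℕ) (U : Finset V), U.card = n → ∃ g : V → ℕ, Set.InjOn g U ∧
      (∀ u ∈ U, g u < n) ∧ ∀ v ∈ U, (U.filter (fun u => F.Adj v u ∧ g u < g v)).card ≤ d := by
    intro n
    induction n with
    | zero =>
      intro U hU
      rw [card_eq_zero] at hU
      subst hU
      exact ⟨fun _ => 0, by simp, by simp, by simp⟩
    | succ n ih =>
      intro U hU
      obtain ⟨u, hu, hud⟩ := h U (card_pos.mp (by omega))
      have hU' : (U.erase u).card = n := by rw [card_erase_of_mem hu, hU]; rfl
      obtain ⟨g, hg1, hg2, hg3⟩ := ih (U.erase u) hU'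
      have hgu : ∀ x, x ≠ u → Function.update g u n x = g x := fun x hx => by
        rw [Function.update_of_ne hx]
      refine ⟨Function.update g u n, ?_, ?_, ?_⟩
      · intro x hx y hy hxy
        by_cases hxu : x = u
        · by_cases hyu : y = u
          · rw [hxu, hyu]
          · rw [hxu, Function.update_self, hgu y hyu] at hxy
            have := hg2 y (mem_erase.mpr ⟨hyu, hy⟩)
            omega
        · by_cases hyu : y = u
          · rw [hyu, Function.update_self, hgu x hxu] at hxy
            have := hg2 x (mem_erase.mpr ⟨hxu, hx⟩)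
            omega
          · rw [hgu x hxu, hgu y hyu] at hxy
            exact hg1 (mem_coe.mpr (mem_erase.mpr ⟨hxu, hx⟩))
              (mem_coe.mpr (mem_erase.mpr ⟨hyu, hy⟩)) hxy
      · intro x hx
        by_cases hxu : x = u
        · rw [hxu, Function.update_self]; omega
        · rw [hgu x hxu]
          have := hg2 x (mem_erase.mpr ⟨hxu, hx⟩)
          omega
      · intro v hv
        by_cases hvu : v = u
        · subst hvu
          refine le_trans (card_le_card ?_) hud
          intro w hw
          rw [mem_filter] at hw ⊢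
          exact ⟨hw.1, hw.2.1⟩
        · refine le_trans (card_le_card ?_) (hg3 v (mem_erase.mpr ⟨hvu, hv⟩))
          intro w hw
          rw [mem_filter] at hw ⊢
          obtain ⟨hw1, hw2, hw3⟩ := hw
          rw [hgu v hvu] at hw3
          have hwu : w ≠ u := by
            intro hh
            rw [hh, Function.update_self] at hw3
            have := hg2 v (mem_erase.mpr ⟨hvu, hv⟩)
            omega
          rw [hgu w hwu] at hw3
          exact ⟨mem_erase.mpr ⟨hwu, hw1⟩, hw2, hw3⟩
  obtain ⟨g, hg1, hg2, hg3⟩ := key (Fintype.card V) univ card_univ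
  have hinj : Function.Injective (fun v : V => (⟨g v, hg2 v (mem_univ v)⟩ : Fin (Fintype.card V))) := by
    intro x y hxy
    exact hg1 (by simp) (by simp) (Fin.mk.inj_iff.mp hxy)
  have hbij := (Fintype.bijective_iff_injective_and_card
    (fun v : V => (⟨g v, hg2 v (mem_univ v)⟩ : Fin (Fintype.card V)))).mpr ⟨hinj, by simp⟩
  refine ⟨Equiv.ofBijective _ hbij, ?_⟩
  intro v
  refine le_trans (card_le_card ?_) (hg3 v (mem_univ v))
  intro w hw
  rw [mem_filter] at hw ⊢
  exact ⟨hw.1, hw.2.1, by simpa [Fin.lt_def] using hw.2.2⟩

end Pool.Agent.Ram1
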