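import Pool.Agent.Ram1.Mean
import Pool.Agent.Ram1.Iter

/-!
# Colouring locally sparse graphs of bounded back degree (MP_4e6f39_co)

`n ≤ exp (c k)` vertices, back degrees at most `lam * k`, few edges inside every back
neighbourhood: then fewer than `k` colours suffice.
-/

set_option autoImplicit false

namespace Pool.Agent.Ram1

open Finset

theorem col (lam : ℝ) (hlam : 1 ≤ lam) : ∃ c : ℝ, 0 < c ∧ ∃ k₀ : ℕ, ∀ k : ℕ, k₀ ≤ k →
    ∀ (n : ℕ) (P : ℕ → Finset ℕ), (∀ v, P v ⊆ range v) →
    (∀ v, v < n → ((P v).card : ℝ) ≤ lam * k) →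
    (∀ v, v < n → (∑ u ∈ P v, ((P u ∩ P v).card : ℝ)) ≤ c * k ^ 2) →
    (n : ℝ) ≤ Real.exp (c * k) →
    ∃ f : ℕ → ℕ, (∀ v, v < n → f v + 1 < k) ∧ ∀ v, v < n → ∀ u ∈ P v, f u ≠ f v := by
  set L : ℝ := 1920 * lam ^ 2 with hL
  have hlam0 : 0 < lam := lt_of_lt_of_le one_pos hlam
  have hL0 : 0 < L := by rw [hL]; positivity
  set W : ℝ := Real.exp L with hW
  have hW1 : 1 < W := Real.one_lt_exp_iff.mpr hL0
  have hW0 : 0 < W := Real.exp_pos L
  set B : ℝ := L * W / 12 with hB
  have hB0 : 0 < B := by rw [hB]; positivity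
  set sg : ℝ := B + B ^ 2 with hsg
  have hsg0 : 0 < sg := by rw [hsg]; positivity
  refine ⟨min (L / (240 * sg)) (1 / (L * W ^ 2)), lt_min (by positivity) (by positivity),
    max 20 ⌈L * W⌉₊, ?_⟩
  intro k hk n P hP hcard hsp hn
  have hk20 : 20 ≤ k := (le_max_left _ _).trans hk
  have hkLW : L * W ≤ k := (Nat.le_ceil _).trans (by exact_mod_cast (le_max_right _ _).trans hk)
  have hk0 : (0 : ℝ) < k := by exact_mod_cast (by omega : 0 < k)
  set c : ℝ := min (L / (240 * sg)) (1 / (L * W ^ 2)) with hc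
  have hc1 : c ≤ L / (240 * sg) := min_le_left _ _
  have hc2 : c ≤ 1 / (L * W ^ 2) := min_le_right _ _
  set d : ℝ := lam * k with hd
  have hd0 : 0 < d := by rw [hd]; positivity
  set δ : ℝ := L / (12 * d) with hδ
  have hδ0 : 0 < δ := by rw [hδ]; positivity
  have hdδ : d * δ = L / 12 := by rw [hδ]; field_simp
  have hkd : (k : ℝ) ≤ d := by rw [hd]; nlinarith
  have hδW : δ * W ≤ 1 / 2 := by
    rw [hδ, div_mul_eq_mul_div, div_le_iff₀ (by positivity)]
    linarith
  obtain ⟨p, S⟩ := Sys_exists P hP W δ hW1.le hδ0 hδW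
  -- the number `r`
  set r : ℕ := k / 4 with hr
  have hr4 : (4 : ℝ) * r ≤ k := by
    have : 4 * r ≤ k := by omega
    exact_mod_cast this
  have hr5 : (k : ℝ) ≤ 5 * r := by
    have : k ≤ 5 * r := by omega
    exact_mod_cast this
  have hr0 : (0 : ℝ) < r := by linarith
  set m : ℝ := r * δ / 2 with hm
  have hm0 : 0 < m := by rw [hm]; positivity
  have hmlow : L / (120 * lam) ≤ m := by
    have h1 : L / (120 * lam) = (k / 5) * δ / 2 := by
      rw [hδ, hd]; field_simp; ring
    rw [h1, hm]
    have : (k : ℝ) / 5 ≤ r := by linarith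
    have := mul_le_mul_of_nonneg_right this hδ0.le
    linarith
  have hmup : m ≤ L / 12 := by
    rw [← hdδ, hm]
    have h1 : (r : ℝ) ≤ d := by linarith
    have := mul_le_mul_of_nonneg_right h1 hδ0.le
    have h2 : 0 ≤ (r : ℝ) * δ := by positivity
    linarith
  have hsg' : sg = d * δ * W + (d * δ * W) ^ 2 := by
    rw [hdδ, hsg, hB]; ring
  have h01 : m ^ 2 / (2 * sg) ≤ 1 := by
    rw [div_le_one (by positivity)]
    have h1 : m ≤ B := by
      refine hmup.trans ?_
      rw [hB]
      have : L * 1 ≤ L * W := mul_le_mul_of_nonneg_left hW1.le hL0.le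
      linarith
    have h2 : m ^ 2 ≤ B ^ 2 := pow_le_pow_left₀ hm0.le h1 2
    rw [hsg]
    nlinarith [sq_nonneg B]
  -- the mean
  have hmean : ∀ v, v < n → δ / 2 ≤ Ex p n (fun I => if v ∈ I then 1 else 0) := by
    intro v hv
    apply S.mean d v n hv (hcard v hv)
    · have h1 := hsp v hv
      have h2 : (∑ u ∈ P v, ((P u ∩ P v).card : ℝ)) ≤ 1 / (L * W ^ 2) * k ^ 2 :=
        h1.trans (mul_le_mul_of_nonneg_right hc2 (by positivity))
      calc 4 * δ * W ^ 2 * ∑ u ∈ P v, ((P u ∩ P v).card : ℝ)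
          ≤ 4 * δ * W ^ 2 * (1 / (L * W ^ 2) * k ^ 2) :=
            mul_le_mul_of_nonneg_left h2 (by positivity)
        _ = k / (3 * lam) := by rw [hδ, hd]; field_simp; norm_num
        _ ≤ k := by
            rw [div_le_iff₀ (by positivity)]
            nlinarith
        _ ≤ d := hkd
    · rw [hW, Real.log_exp]
      have : 12 * δ * d = L := by rw [mul_assoc, mul_comm δ d, hdδ]; ring
      exact this.le
    · exact hW1
  -- the number of rounds
  set t : ℕ := ⌈4 * d / m⌉₊ with ht
  have ht1 : 4 * d / m ≤ t := Nat.le_ceil _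
  have ht2 : (t : ℝ) ≤ k / 4 + 1 := by
    have h1 : (t : ℝ) < 4 * d / m + 1 := Nat.ceil_lt_add_one (by positivity)
    have h2 : 4 * d / m ≤ k / 4 := by
      rw [div_le_iff₀ hm0]
      have h3 : (k : ℝ) / 4 * (L / (120 * lam)) ≤ k / 4 * m :=
        mul_le_mul_of_nonneg_left hmlow (by positivity)
      refine le_trans (le_of_eq ?_) h3
      rw [hL, hd]; field_simp; norm_num
    linarith
  have htk : t + r + 1 ≤ k := by
    have h1 : (t : ℝ) + r + 1 ≤ k := by
      have : (20 : ℝ) ≤ k := by exact_mod_cast hk20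
      linarith
    exact_mod_cast h1
  have hfin : n * Real.exp (m / sg * d) * (1 - m ^ 2 / (2 * sg)) ^ t < 1 := by
    have h1 : (1 - m ^ 2 / (2 * sg)) ^ t ≤ Real.exp (-(t * (m ^ 2 / (2 * sg)))) := by
      have h2 : 1 - m ^ 2 / (2 * sg) ≤ Real.exp (-(m ^ 2 / (2 * sg))) := by
        have := Real.add_one_le_exp (-(m ^ 2 / (2 * sg)))
        linarith
      refine (pow_le_pow_left₀ (by linarith) h2 t).trans (le_of_eq ?_)
      rw [← Real.exp_nat_mul]
      congr 1
      ring
    have h3 : 2 * (m / sg * d) ≤ t * (m ^ 2 / (2 * sg)) := by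
      have h4 := mul_le_mul_of_nonneg_right ht1 (show 0 ≤ m ^ 2 / (2 * sg) by positivity)
      refine le_trans (le_of_eq ?_) h4
      field_simp
      norm_num
    calc n * Real.exp (m / sg * d) * (1 - m ^ 2 / (2 * sg)) ^ t
        ≤ Real.exp (c * k) * Real.exp (m / sg * d) * Real.exp (-(t * (m ^ 2 / (2 * sg)))) := by
          apply mul_le_mul
          · exact mul_le_mul_of_nonneg_right hn (Real.exp_pos _).le
          · exact h1
          · exact pow_nonneg (by linarith) t
          · positivity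
      _ = Real.exp (c * k + m / sg * d + -(t * (m ^ 2 / (2 * sg)))) := by
          rw [Real.exp_add, Real.exp_add]
      _ < 1 := by
          rw [Real.exp_lt_one_iff]
          have h5 : c * k < m / sg * d := by
            have h6 : L / (240 * sg) * k < m / sg * d := by
              have h7 : L / (120 * lam) / sg * d ≤ m / sg * d := by
                apply mul_le_mul_of_nonneg_right _ hd0.le
                exact div_le_div_of_nonneg_right hmlow hsg0.le
              refine lt_of_lt_of_le ?_ h7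
              have h8 : L / (120 * lam) / sg * d = 2 * (L / (240 * sg) * k) := by
                rw [hd]; field_simp; norm_num
              rw [h8]
              have : 0 < L / (240 * sg) * k := by positivity
              linarith
            exact lt_of_le_of_lt (mul_le_mul_of_nonneg_right hc1 hk0.le) h6
          linarith
  obtain ⟨I, hI1, hI2⟩ := S.cover n t d r m sg hd0 hr0 hm hsg' hmean hcard hfin h01
  obtain ⟨f, hf1, hf2⟩ := colouring n t r P hP I hI1
    (fun v hv => by exact_mod_cast hI2 v hv)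
  exact ⟨f, fun v hv => by have := hf1 v hv; omega, hf2⟩

end Pool.Agent.Ram1
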