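import Mathlib

/-!
# The random process behind the locally sparse colouring theorem (MP_4e6f39_co)

Vertices are `0, 1, 2, …`; `P v ⊆ range v` is the set of earlier neighbours of `v`.
A random set `I ⊆ range n` is built vertex by vertex: `x` enters with probability `q x I`, where
`q x I` only depends on `I ∩ range x`.
-/

set_option autoImplicit false

namespace Pool.Agent.Ram1

open Finset

/-- Expectation of `f I` for the random set `I ⊆ range n` in which, step by step, the element `x`
enters with probability `q x (elements chosen so far)`. -/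
noncomputable def Ex (q : ℕ → Finset ℕ → ℝ) : ℕ → (Finset ℕ → ℝ) → ℝ
  | 0, f => f ∅
  | n + 1, f => Ex q n (fun I => q n I * f (insert n I) + (1 - q n I) * f I)

/-- `q x I` depends only on `I ∩ range x`. -/
def Loc (q : ℕ → Finset ℕ → ℝ) : Prop :=
  ∀ (x y : ℕ) (I : Finset ℕ), x ≤ y → q x (insert y I) = q x I

/-- The density of the process with the elements of `S` forced out. -/
noncomputable def dens (q : ℕ → Finset ℕ → ℝ) (S I : Finset ℕ) : ℝ :=
  ∏ x ∈ S, if x ∈ I then 0 else (1 - q x I)⁻¹

/-- The process with the elements of `S` forced out. -/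
noncomputable def off (q : ℕ → Finset ℕ → ℝ) (S : Finset ℕ) : ℕ → Finset ℕ → ℝ :=
  fun x I => if x ∈ S then 0 else q x I

/-- The process: `p v I = δ w` if the weight `w = dens p (P v) I` is at most `W`, else `0`. -/
structure Sys (P : ℕ → Finset ℕ) (W δ : ℝ) (p : ℕ → Finset ℕ → ℝ) : Prop where
  sub : ∀ v, P v ⊆ range v
  one_le : 1 ≤ W
  pos : 0 < δ
  half : δ * W ≤ 1 / 2
  eq : ∀ v I, p v I = if dens p (P v) I ≤ W then δ * dens p (P v) I else 0

end Pool.Agent.Ram1
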