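import Mathlib

/-!
# A lower bound for Ramsey numbers from the minimum degree of a subgraph
-/

set_option autoImplicit false

namespace Pool.Agent.Ram1

open Finset
open scoped Classical

/-- If every vertex of `U` has more than `d` neighbours in `U` and `N ^ 2 ≤ 2 ^ d`, some
two-colouring of the edges of `K_N` has no monochromatic copy of `F`. -/
theorem low {V : Type} [Fintype V] (F : SimpleGraph V) (U : Finset V) (hU : U.Nonempty) (d : ℕ)
    (hd : 1 ≤ d) (hdeg : ∀ u ∈ U, d < (U.filter (fun w => F.Adj u w)).card) (N : ℕ)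
    (hN : N ^ 2 ≤ 2 ^ d) :
    ∃ H : SimpleGraph (Fin N), ¬ F.IsContained H ∧ ¬ F.IsContained Hᶜ := by
  by_contra hcon0
  have hcon : ∀ H : SimpleGraph (Fin N), ¬ F.IsContained H → F.IsContained Hᶜ := by
    intro H h1
    by_contra h2
    exact hcon0 ⟨H, h1, h2⟩
  set M := Fintype.card (Sym2 (Fin N)) with hM
  -- the edges of `F` inside `U`
  set E : Finset (Sym2 V) := ((U ×ˢ U).filter (fun p => F.Adj p.1 p.2)).image (fun p => s(p.1, p.2))
    with hE
  have hmemE : ∀ e ∈ E, ∃ x ∈ U, ∃ y ∈ U, F.Adj x y ∧ e = s(x, y) := by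
    intro e he
    obtain ⟨⟨x, y⟩, hxy, rfl⟩ := mem_image.mp he
    rw [mem_filter, mem_product] at hxy
    exact ⟨x, hxy.1.1, y, hxy.1.2, hxy.2, rfl⟩
  have hEcard : (d + 1) * U.card ≤ 2 * E.card := by
    have h1 : ((U ×ˢ U).filter (fun p => F.Adj p.1 p.2)).card =
        ∑ u ∈ U, (U.filter (fun w => F.Adj u w)).card := by
      rw [card_filter, sum_product]
      apply sum_congr rfl
      intro u _
      rw [card_filter]
    have h2 : ((U ×ˢ U).filter (fun p => F.Adj p.1 p.2)).card ≤ E.card * 2 := by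
      rw [hE, mul_comm]
      apply card_le_mul_card_image
      intro e he
      obtain ⟨⟨x, y⟩, _, rfl⟩ := mem_image.mp he
      have : ((U ×ˢ U).filter (fun p => F.Adj p.1 p.2)).filter (fun p => s(p.1, p.2) = s(x, y)) ⊆
          {(x, y), (y, x)} := by
        intro p hp
        have h3 := (mem_filter.mp hp).2
        rw [Sym2.eq_iff] at h3
        simp only [mem_insert, mem_singleton]
        rcases h3 with ⟨h3, h4⟩ | ⟨h3, h4⟩
        · left; exact Prod.ext h3 h4
        · right; exact Prod.ext h3 h4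
      exact le_trans (card_le_card this) card_le_two
    have h3 : (d + 1) * U.card ≤ ∑ u ∈ U, (U.filter (fun w => F.Adj u w)).card := by
      rw [mul_comm, ← smul_eq_mul, ← sum_const]
      exact sum_le_sum (fun u hu => hdeg u hu)
    omega
  have hU3 : 3 ≤ U.card := by
    obtain ⟨u, hu⟩ := hU
    have h1 := hdeg u hu
    have h2 : (U.filter (fun w => F.Adj u w)).card < U.card := by
      apply card_lt_card
      refine ⟨filter_subset _ _, fun h => ?_⟩
      have := (mem_filter.mp (h hu)).2
      exact F.loopless.irrefl u this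
    omega
  -- graph of a colouring
  let gr : (Sym2 (Fin N) → Bool) → SimpleGraph (Fin N) := fun f =>
    { Adj := fun x y => x ≠ y ∧ f s(x, y) = true
      symm := ⟨fun x y hxy => ⟨hxy.1.symm, by rw [Sym2.eq_swap]; exact hxy.2⟩⟩
      loopless := ⟨fun x hx => hx.1 rfl⟩ }
  -- colourings that give all the edges of a copy the same colour
  let bad : (U ↪ Fin N) → Bool → Finset (Sym2 (Fin N) → Bool) := fun φ b =>
    univ.filter (fun f => ∀ x y : U, F.Adj x y → f s(φ x, φ y) = b)
  have hbadcard : ∀ (φ : U ↪ Fin N) (b : Bool), (bad φ b).card * 2 ^ E.card ≤ 2 ^ M := by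
    intro φ b
    -- extend `φ` to a map on all of `V`
    set ψ : V → Fin N := fun x => if h : x ∈ U then φ ⟨x, h⟩ else φ ⟨hU.choose, hU.choose_spec⟩
      with hψ
    have hψU : ∀ (x : V) (h : x ∈ U), ψ x = φ ⟨x, h⟩ := fun x h => by simp [hψ, h]
    set E' : Finset (Sym2 (Fin N)) := E.image (Sym2.map ψ) with hE'
    have hE'c : E'.card = E.card := by
      rw [hE']
      apply card_image_of_injOn
      intro e he e' he' heq
      obtain ⟨x, hx, y, hy, _, rfl⟩ := hmemE e he
      obtain ⟨x', hx', y', hy', _, rfl⟩ := hmemE e' he'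
      simp only [Sym2.map_mk] at heq
      rw [hψU x hx, hψU y hy, hψU x' hx', hψU y' hy'] at heq
      rw [Sym2.eq_iff] at heq ⊢
      rcases heq with ⟨h1, h2⟩ | ⟨h1, h2⟩
      · left
        exact ⟨by simpa using φ.injective h1, by simpa using φ.injective h2⟩
      · right
        exact ⟨by simpa using φ.injective h1, by simpa using φ.injective h2⟩
    have hsub : bad φ b ⊆ Fintype.piFinset (fun e => if e ∈ E' then ({b} : Finset Bool) else univ) := by
      intro f hf
      have hf := (mem_filter.mp hf).2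
      rw [Fintype.mem_piFinset]
      intro e
      split
      · rename_i he
        obtain ⟨e0, he0, rfl⟩ := mem_image.mp he
        obtain ⟨x, hx, y, hy, hadj, rfl⟩ := hmemE e0 he0
        have := hf ⟨x, hx⟩ ⟨y, hy⟩ hadj
        simp only [Sym2.map_mk, mem_singleton]
        rw [hψU x hx, hψU y hy]
        exact this
      · simp
    have hcard : (Fintype.piFinset (fun e : Sym2 (Fin N) => if e ∈ E' then ({b} : Finset Bool)
        else univ)).card * 2 ^ E.card = 2 ^ M := by
      rw [Fintype.card_piFinset]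
      have h1 : ∀ e : Sym2 (Fin N), (if e ∈ E' then ({b} : Finset Bool) else univ).card =
          if e ∈ E' then 1 else 2 := by
        intro e
        split <;> simp
      rw [prod_congr rfl (fun e _ => h1 e), prod_ite, prod_const_one, one_mul, prod_const]
      have h2 : (univ.filter (fun e => e ∈ E')).card = E.card := by
        have : univ.filter (fun e => e ∈ E') = E' := by ext e; simp
        rw [this, hE'c]
      have h3 := card_filter_add_card_filter_not (s := (univ : Finset (Sym2 (Fin N))))
        (fun e => e ∈ E')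
      rw [h2] at h3
      rw [← pow_add]
      congr 1
      rw [hM, ← card_univ]
      omega
    rw [← hcard]
    exact Nat.mul_le_mul_right _ (card_le_card hsub)
  have hcover : (univ : Finset (Sym2 (Fin N) → Bool)) ⊆
      ((univ : Finset (U ↪ Fin N)) ×ˢ (univ : Finset Bool)).biUnion (fun p => bad p.1 p.2) := by
    intro f _
    rw [mem_biUnion]
    by_cases h1 : F.IsContained (gr f)
    · obtain ⟨g⟩ := h1
      refine ⟨(⟨fun x => g x, fun x y hxy => Subtype.ext (g.injective hxy)⟩, true),
        by simp, mem_filter.mpr ⟨mem_univ _, ?_⟩⟩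
      intro x y hxy
      exact (g.toHom.map_adj hxy).2
    · obtain ⟨g⟩ := hcon (gr f) h1
      refine ⟨(⟨fun x => g x, fun x y hxy => Subtype.ext (g.injective hxy)⟩, false),
        by simp, mem_filter.mpr ⟨mem_univ _, ?_⟩⟩
      intro x y hxy
      have h2 := g.toHom.map_adj hxy
      rw [SimpleGraph.compl_adj] at h2
      have h3 : ¬ ((g x ≠ g y) ∧ f s(g x, g y) = true) := h2.2
      have h4 : f s(g x, g y) ≠ true := fun hh => h3 ⟨h2.1, hh⟩
      simpa using h4
  have hle := (card_le_card hcover).trans card_biUnion_le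
  have huniv : (univ : Finset (Sym2 (Fin N) → Bool)).card = 2 ^ M := by
    rw [card_univ, Fintype.card_fun]
    simp [hM]
  rw [huniv] at hle
  have hemb : Fintype.card (U ↪ Fin N) ≤ N ^ U.card := by
    rw [Fintype.card_embedding_eq, Fintype.card_fin, Fintype.card_coe]
    exact Nat.descFactorial_le_pow N U.card
  have h1 : 2 ^ M * 2 ^ E.card ≤ (2 * N ^ U.card) * 2 ^ M := by
    calc 2 ^ M * 2 ^ E.card ≤ (∑ p ∈ (univ : Finset (U ↪ Fin N)) ×ˢ (univ : Finset Bool),
          (bad p.1 p.2).card) * 2 ^ E.card := Nat.mul_le_mul_right _ hle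
      _ = ∑ p ∈ (univ : Finset (U ↪ Fin N)) ×ˢ (univ : Finset Bool),
          (bad p.1 p.2).card * 2 ^ E.card := by rw [sum_mul]
      _ ≤ ∑ _p ∈ (univ : Finset (U ↪ Fin N)) ×ˢ (univ : Finset Bool), 2 ^ M :=
          sum_le_sum (fun p _ => hbadcard p.1 p.2)
      _ = (Fintype.card (U ↪ Fin N) * 2) * 2 ^ M := by
          rw [sum_const, card_product, smul_eq_mul, card_univ, card_univ, Fintype.card_bool]
      _ ≤ (2 * N ^ U.card) * 2 ^ M := by
          apply Nat.mul_le_mul_right
          omega
  have h2 : 2 ^ E.card ≤ 2 * N ^ U.card := by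
    have hpos : 0 < 2 ^ M := by positivity
    rw [mul_comm (2 * N ^ U.card)] at h1
    exact Nat.le_of_mul_le_mul_left h1 hpos
  -- the numerical contradiction
  have h3 : (2 ^ E.card) ^ 2 ≤ 4 * 2 ^ (d * U.card) := by
    calc (2 ^ E.card) ^ 2 ≤ (2 * N ^ U.card) ^ 2 := Nat.pow_le_pow_left h2 2
      _ = 4 * (N ^ 2) ^ U.card := by ring
      _ ≤ 4 * (2 ^ d) ^ U.card := Nat.mul_le_mul_left _ (Nat.pow_le_pow_left hN _)
      _ = 4 * 2 ^ (d * U.card) := by rw [← pow_mul]
  have h4 : 2 ^ ((d + 1) * U.card) ≤ (2 ^ E.card) ^ 2 := by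
    rw [← pow_mul]
    apply Nat.pow_le_pow_right (by norm_num)
    omega
  have h5 : 2 ^ (d * U.card + 3) ≤ 2 ^ ((d + 1) * U.card) := by
    apply Nat.pow_le_pow_right (by norm_num)
    have : (d + 1) * U.card = d * U.card + U.card := by ring
    omega
  have h6 : 2 ^ (d * U.card + 3) = 8 * 2 ^ (d * U.card) := by rw [pow_add]; ring
  have h7 : 0 < 2 ^ (d * U.card) := by positivity
  omega

end Pool.Agent.Ram1
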