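import Pool.Agent.Ram1.Proc

/-!
# Every vertex is in the random set with probability at least `δ / 2`
-/

set_option autoImplicit false

namespace Pool.Agent.Ram1

open Finset

variable {P : ℕ → Finset ℕ} {W δ : ℝ} {p : ℕ → Finset ℕ → ℝ}

theorem inv_le_exp (x : ℝ) (h0 : 0 ≤ x) (h1 : x ≤ 1 / 2) : (1 - x)⁻¹ ≤ Real.exp (2 * x) := by
  have h2 : 1 + 2 * x ≤ Real.exp (2 * x) := by
    have := Real.add_one_le_exp (2 * x)
    linarith
  refine le_trans ?_ h2
  have h3 : 0 < 1 - x := by linarith
  rw [inv_le_iff_one_le_mul₀ h3]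
  nlinarith

theorem Sys.off_nonneg (S : Sys P W δ p) (T : Finset ℕ) (x : ℕ) (I : Finset ℕ) :
    0 ≤ off p T x I := by
  unfold off
  split
  · exact le_refl _
  · exact S.nonneg x I

theorem Sys.off_le_half (S : Sys P W δ p) (T : Finset ℕ) (x : ℕ) (I : Finset ℕ) :
    off p T x I ≤ 1 / 2 := by
  unfold off
  split
  · norm_num
  · exact S.le_half x I

theorem Sys.off_loc (S : Sys P W δ p) (T : Finset ℕ) : Loc (off p T) := by
  intro x y I hxy
  unfold off
  rw [S.loc x y I hxy]

/-- Monotonicity for the process with `T` forced out. -/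
theorem Sys.off_mono (S : Sys P W δ p) (T : Finset ℕ) (n : ℕ) (f g : Finset ℕ → ℝ)
    (h : ∀ I, I ⊆ range n → (∀ x ∈ T, x ∉ I) → f I ≤ g I) :
    Ex (off p T) n f ≤ Ex (off p T) n g := by
  apply Ex_mono (off p T) (S.off_nonneg T) (fun x I => by linarith [S.off_le_half T x I])
    (fun n I => I ⊆ range n ∧ ∀ x ∈ T, x ∉ I)
  · exact ⟨by simp, by simp⟩
  · rintro n I ⟨h1, h2⟩
    exact ⟨h1.trans (range_subset_range.mpr (Nat.le_succ n)), h2⟩
  · rintro n I ⟨h1, h2⟩ hn
    refine ⟨insert_subset (by simp) (h1.trans (range_subset_range.mpr (Nat.le_succ n))), ?_⟩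
    intro x hx hxI
    rcases mem_insert.mp hxI with rfl | hxI
    · apply hn
      simp [off, hx]
    · exact h2 x hx hxI
  · rintro I ⟨h1, h2⟩
    exact h I h1 h2

/-- The weight of an earlier neighbour under the tilted process. -/
theorem Sys.dens_le (S : Sys P W δ p) (T : Finset ℕ) (u : ℕ) (I : Finset ℕ)
    (hI : ∀ x ∈ T, x ∉ I) :
    dens p (P u) I ≤ dens (off p T) (P u \ T) I * Real.exp (2 * (δ * W) * ((P u ∩ T).card : ℝ)) := by
  have h1 : dens p (P u) I = dens p (P u \ T) I * dens p (P u ∩ T) I := by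
    unfold dens
    rw [← prod_union (disjoint_sdiff_inter _ _), sdiff_union_inter]
  have h2 : dens p (P u \ T) I = dens (off p T) (P u \ T) I := by
    unfold dens
    apply prod_congr rfl
    intro x hx
    have : x ∉ T := (mem_sdiff.mp hx).2
    simp [off, this]
  have h3 : dens p (P u ∩ T) I ≤ Real.exp (2 * (δ * W) * ((P u ∩ T).card : ℝ)) := by
    have e1 : dens p (P u ∩ T) I ≤ ∏ _x ∈ P u ∩ T, Real.exp (2 * (δ * W)) := by
      unfold dens
      apply prod_le_prod
      · intro x _
        split
        · exact le_refl _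
        · apply inv_nonneg.mpr
          linarith [S.le_half x I]
      · intro x hx
        rw [if_neg (hI x (mem_inter.mp hx).2)]
        refine le_trans (inv_le_exp _ (S.nonneg x I) (S.le_half x I)) ?_
        apply Real.exp_le_exp.mpr
        linarith [S.le x I]
    rw [prod_const, ← Real.exp_nat_mul] at e1
    refine le_trans e1 (le_of_eq ?_)
    congr 1
    ring
  rw [h1, h2]
  apply mul_le_mul_of_nonneg_left h3
  rw [← h2]
  exact S.dens_nonneg _ _

theorem exp_half_le_two : Real.exp (1 / 2) ≤ 2 := by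
  have h1 : Real.exp (1 / 2) ^ 2 = Real.exp 1 := by
    rw [← Real.exp_nat_mul]
    congr 1
    norm_num
  have h2 : Real.exp 1 < 4 := by
    have := Real.exp_one_lt_d9
    linarith
  have h3 : 0 < Real.exp (1 / 2) := Real.exp_pos _
  nlinarith

/-- The expected probability of an earlier neighbour under the tilted process. -/
theorem Sys.tilt_le (S : Sys P W δ p) (T : Finset ℕ) (u v : ℕ) (huv : u < v) :
    Ex (off p T) v (fun I => p u I) ≤ δ * (2 + 4 * δ * W ^ 2 * ((P u ∩ T).card : ℝ)) := by
  have hc : (0 : ℝ) ≤ ((P u ∩ T).card : ℝ) := Nat.cast_nonneg _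
  have hδ := S.pos
  have hW := S.one_le
  by_cases hb : 4 * (δ * W) * ((P u ∩ T).card : ℝ) ≤ 1
  · have h1 : Ex (off p T) v (fun I => p u I) ≤
        Ex (off p T) v (fun I => (2 * δ) * dens (off p T) (P u \ T) I) := by
      apply S.off_mono
      intro I _ hI
      have e1 := S.le_dens u I
      have e2 := S.dens_le T u I hI
      have e3 : Real.exp (2 * (δ * W) * ((P u ∩ T).card : ℝ)) ≤ 2 := by
        refine le_trans (Real.exp_le_exp.mpr ?_) exp_half_le_two
        linarith
      have e4 : 0 ≤ dens (off p T) (P u \ T) I := by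
        unfold dens
        apply prod_nonneg
        intro x _
        split
        · exact le_refl _
        · apply inv_nonneg.mpr
          linarith [S.off_le_half T x I]
      calc p u I ≤ δ * dens p (P u) I := e1
        _ ≤ δ * (dens (off p T) (P u \ T) I * 2) := by
            apply mul_le_mul_of_nonneg_left _ hδ.le
            exact le_trans e2 (mul_le_mul_of_nonneg_left e3 e4)
        _ = (2 * δ) * dens (off p T) (P u \ T) I := by ring
    have h2 : Ex (off p T) v (fun I => dens (off p T) (P u \ T) I) = 1 := by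
      have e1 := Ex_change (q := off p T) (S.off_loc T)
        (fun x I => by have := S.off_le_half T x I; intro h; linarith) (P u \ T) v (by
          intro x hx
          have h3 := mem_range.mp (S.sub u (mem_sdiff.mp hx).1)
          exact mem_range.mpr (by omega)) (fun _ => 1)
      rw [Ex_const] at e1
      rw [← e1]
      congr 1
      funext I
      rw [mul_one]
    rw [Ex_mul, h2, mul_one] at h1
    refine le_trans h1 ?_
    have : 0 ≤ δ * (4 * δ * W ^ 2 * ((P u ∩ T).card : ℝ)) := by positivity
    linarith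
  · have h1 : Ex (off p T) v (fun I => p u I) ≤ Ex (off p T) v (fun _ => δ * W) := by
      apply S.off_mono
      intro I _ _
      exact S.le u I
    rw [Ex_const] at h1
    refine le_trans h1 ?_
    apply mul_le_mul_of_nonneg_left _ hδ.le
    have h2 : 1 < 4 * (δ * W) * ((P u ∩ T).card : ℝ) := not_le.mp hb
    have h3 : W * 1 ≤ W * (4 * (δ * W) * ((P u ∩ T).card : ℝ)) :=
      mul_le_mul_of_nonneg_left h2.le (by linarith)
    nlinarith

/-- Every vertex is in the random set with probability at least `δ / 2`. -/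
theorem Sys.mean (S : Sys P W δ p) (d : ℝ) (v n : ℕ) (hv : v < n) (hd : ((P v).card : ℝ) ≤ d)
    (hsp : 4 * δ * W ^ 2 * ∑ u ∈ P v, ((P u ∩ P v).card : ℝ) ≤ d)
    (hδ : 12 * δ * d ≤ Real.log W) (hW : 1 < W) :
    δ / 2 ≤ Ex p n (fun I => if v ∈ I then 1 else 0) := by
  have hlog : 0 < Real.log W := Real.log_pos hW
  have hδ0 := S.pos
  rw [S.mem v n hv]
  have h1 : Ex p v (fun I => p v I) =
      Ex (off p (P v)) v (fun I => δ * (if dens p (P v) I ≤ W then 1 else 0)) := by
    rw [← Ex_change S.loc S.ne_one (P v) v (S.sub v)]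
    congr 1
    funext I
    rw [S.eq v I]
    split
    · ring
    · ring
  rw [h1]
  have h2 : Ex (off p (P v)) v (fun I => δ - (2 * δ / Real.log W) * ∑ u ∈ P v, p u I) ≤
      Ex (off p (P v)) v (fun I => δ * (if dens p (P v) I ≤ W then 1 else 0)) := by
    apply S.off_mono
    intro I _ hI
    have hs : 0 ≤ ∑ u ∈ P v, p u I := sum_nonneg (fun u _ => S.nonneg u I)
    split
    · have : 0 ≤ (2 * δ / Real.log W) * ∑ u ∈ P v, p u I := by positivity
      linarith
    · rename_i hgt
      have hgt := not_le.mp hgt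
      have e1 : dens p (P v) I ≤ Real.exp (2 * ∑ u ∈ P v, p u I) := by
        rw [mul_sum, Real.exp_sum]
        unfold dens
        apply prod_le_prod
        · intro x _
          split
          · exact le_refl _
          · apply inv_nonneg.mpr
            linarith [S.le_half x I]
        · intro x hx
          rw [if_neg (hI x hx)]
          exact inv_le_exp _ (S.nonneg x I) (S.le_half x I)
      have e2 : Real.log W < 2 * ∑ u ∈ P v, p u I := by
        rw [Real.log_lt_iff_lt_exp (by linarith)]
        linarith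
      have e3 : 1 ≤ (2 * ∑ u ∈ P v, p u I) / Real.log W := by
        rw [le_div_iff₀ hlog]
        linarith
      have e4 : (2 * δ / Real.log W) * ∑ u ∈ P v, p u I =
          δ * ((2 * ∑ u ∈ P v, p u I) / Real.log W) := by ring
      rw [e4]
      nlinarith
  refine le_trans ?_ h2
  have h3 : Ex (off p (P v)) v (fun I => δ - (2 * δ / Real.log W) * ∑ u ∈ P v, p u I) =
      δ - (2 * δ / Real.log W) * ∑ u ∈ P v, Ex (off p (P v)) v (fun I => p u I) := by
    have e1 : (fun I => δ - (2 * δ / Real.log W) * ∑ u ∈ P v, p u I) =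
        fun I => δ + (-(2 * δ / Real.log W)) * ∑ u ∈ P v, p u I := by
      funext I
      ring
    rw [e1, Ex_add, Ex_const, Ex_mul, Ex_sum]
    ring
  rw [h3]
  have h4 : ∑ u ∈ P v, Ex (off p (P v)) v (fun I => p u I) ≤ Real.log W / 4 := by
    calc ∑ u ∈ P v, Ex (off p (P v)) v (fun I => p u I) ≤
        ∑ u ∈ P v, δ * (2 + 4 * δ * W ^ 2 * ((P u ∩ P v).card : ℝ)) :=
          sum_le_sum (fun u hu => S.tilt_le (P v) u v (mem_range.mp (S.sub v hu)))
      _ = δ * (2 * ((P v).card : ℝ) + 4 * δ * W ^ 2 * ∑ u ∈ P v, ((P u ∩ P v).card : ℝ)) := by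
          rw [← mul_sum, sum_add_distrib, sum_const, nsmul_eq_mul, mul_sum]
          ring
      _ ≤ δ * (2 * d + d) := by
          apply mul_le_mul_of_nonneg_left _ hδ0.le
          linarith
      _ ≤ Real.log W / 4 := by linarith
  have h5 : (2 * δ / Real.log W) * ∑ u ∈ P v, Ex (off p (P v)) v (fun I => p u I) ≤
      (2 * δ / Real.log W) * (Real.log W / 4) :=
    mul_le_mul_of_nonneg_left h4 (by positivity)
  have h6 : (2 * δ / Real.log W) * (Real.log W / 4) = δ / 2 := by
    field_simp
    ring
  linarith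

end Pool.Agent.Ram1
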