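import Pool.Agent.Ram1.Defs

/-!
# The expectation operator and basic properties of the process
-/

set_option autoImplicit false

namespace Pool.Agent.Ram1

open Finset

variable {q : ℕ → Finset ℕ → ℝ}

theorem Ex_add (q : ℕ → Finset ℕ → ℝ) (n : ℕ) (f g : Finset ℕ → ℝ) :
    Ex q n (fun I => f I + g I) = Ex q n f + Ex q n g := by
  induction n generalizing f g with
  | zero => rfl
  | succ n ih =>
    show Ex q n (fun I => q n I * (f (insert n I) + g (insert n I)) +
      (1 - q n I) * (f I + g I)) = Ex q n _ + Ex q n _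
    rw [← ih]
    congr 1
    funext I
    ring

theorem Ex_mul (q : ℕ → Finset ℕ → ℝ) (n : ℕ) (c : ℝ) (f : Finset ℕ → ℝ) :
    Ex q n (fun I => c * f I) = c * Ex q n f := by
  induction n generalizing f with
  | zero => rfl
  | succ n ih =>
    show Ex q n (fun I => q n I * (c * f (insert n I)) + (1 - q n I) * (c * f I)) = c * Ex q n _
    rw [← ih]
    congr 1
    funext I
    ring

theorem Ex_const (q : ℕ → Finset ℕ → ℝ) (n : ℕ) (c : ℝ) : Ex q n (fun _ => c) = c := by
  induction n with
  | zero => rfl
  | succ n ih =>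
    show Ex q n (fun I => q n I * c + (1 - q n I) * c) = c
    rw [← ih]
    congr 1
    funext I
    rw [ih]
    ring

theorem Ex_sum {ι : Type} (q : ℕ → Finset ℕ → ℝ) (n : ℕ) (s : Finset ι) (f : ι → Finset ℕ → ℝ) :
    Ex q n (fun I => ∑ i ∈ s, f i I) = ∑ i ∈ s, Ex q n (f i) := by
  classical
  induction s using Finset.induction_on with
  | empty => simpa using Ex_const q n 0
  | insert a s ha ih =>
    rw [sum_insert ha, ← ih, ← Ex_add]
    congr 1
    funext I
    rw [sum_insert ha]

theorem Ex_congr (q : ℕ → Finset ℕ → ℝ) (n : ℕ) (f g : Finset ℕ → ℝ)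
    (h : ∀ I, I ⊆ range n → f I = g I) : Ex q n f = Ex q n g := by
  induction n generalizing f g with
  | zero => exact h ∅ (by simp)
  | succ n ih =>
    apply ih
    intro I hI
    have h1 : I ⊆ range (n + 1) := hI.trans (range_subset_range.mpr (Nat.le_succ n))
    rw [h I h1, h (insert n I) (insert_subset (by simp) h1)]

/-- Monotonicity on the support; `A` is an invariant of the process. -/
theorem Ex_mono (q : ℕ → Finset ℕ → ℝ) (h0 : ∀ x I, 0 ≤ q x I) (h1 : ∀ x I, q x I ≤ 1)
    (A : ℕ → Finset ℕ → Prop) (A0 : A 0 ∅) (A1 : ∀ n I, A n I → A (n + 1) I)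
    (A2 : ∀ n I, A n I → q n I ≠ 0 → A (n + 1) (insert n I))
    (n : ℕ) (f g : Finset ℕ → ℝ) (h : ∀ I, A n I → f I ≤ g I) : Ex q n f ≤ Ex q n g := by
  induction n generalizing f g with
  | zero => exact h ∅ A0
  | succ n ih =>
    apply ih
    intro I hI
    have e1 := h I (A1 n I hI)
    have e2 : q n I * f (insert n I) ≤ q n I * g (insert n I) := by
      by_cases hq : q n I = 0
      · rw [hq, zero_mul, zero_mul]
      · exact mul_le_mul_of_nonneg_left (h _ (A2 n I hI hq)) (h0 n I)
    have e3 : (1 - q n I) * f I ≤ (1 - q n I) * g I :=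
      mul_le_mul_of_nonneg_left e1 (by linarith [h1 n I])
    linarith

/-- Monotonicity on the subsets of `range n`. -/
theorem Ex_mono' (q : ℕ → Finset ℕ → ℝ) (h0 : ∀ x I, 0 ≤ q x I) (h1 : ∀ x I, q x I ≤ 1)
    (n : ℕ) (f g : Finset ℕ → ℝ) (h : ∀ I, I ⊆ range n → f I ≤ g I) : Ex q n f ≤ Ex q n g := by
  apply Ex_mono q h0 h1 (fun n I => I ⊆ range n)
  · simp
  · intro n I hI
    exact hI.trans (range_subset_range.mpr (Nat.le_succ n))
  · intro n I hI _
    apply insert_subset (by simp)
    exact hI.trans (range_subset_range.mpr (Nat.le_succ n))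
  · exact h

/-- Some outcome is at most the expectation. -/
theorem Ex_exists (q : ℕ → Finset ℕ → ℝ) (h0 : ∀ x I, 0 ≤ q x I) (h1 : ∀ x I, q x I ≤ 1)
    (A : ℕ → Finset ℕ → Prop) (A0 : A 0 ∅) (A1 : ∀ n I, A n I → A (n + 1) I)
    (A2 : ∀ n I, A n I → q n I ≠ 0 → A (n + 1) (insert n I))
    (n : ℕ) (f : Finset ℕ → ℝ) : ∃ I, A n I ∧ f I ≤ Ex q n f := by
  induction n generalizing f with
  | zero => exact ⟨∅, A0, le_refl _⟩
  | succ n ih =>
    obtain ⟨I, hI, hle⟩ := ih (fun I => q n I * f (insert n I) + (1 - q n I) * f I)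
    by_cases hq : q n I = 0
    · refine ⟨I, A1 n I hI, ?_⟩
      rw [hq] at hle
      show f I ≤ Ex q n _
      linarith
    · rcases le_total (f (insert n I)) (f I) with hc | hc
      · refine ⟨insert n I, A2 n I hI hq, ?_⟩
        refine le_trans ?_ hle
        have := mul_le_mul_of_nonneg_left hc (by linarith [h1 n I] : 0 ≤ 1 - q n I)
        linarith
      · refine ⟨I, A1 n I hI, ?_⟩
        refine le_trans ?_ hle
        have := mul_le_mul_of_nonneg_left hc (h0 n I)
        linarith

theorem Ex_loc (q : ℕ → Finset ℕ → ℝ) (m n : ℕ) (hmn : m ≤ n) (f : Finset ℕ → ℝ)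
    (hf : ∀ (y : ℕ) (I : Finset ℕ), m ≤ y → f (insert y I) = f I) : Ex q n f = Ex q m f := by
  induction n, hmn using Nat.le_induction with
  | base => rfl
  | succ n hmn ih =>
    rw [← ih]
    show Ex q n (fun I => q n I * f (insert n I) + (1 - q n I) * f I) = _
    congr 1
    funext I
    rw [hf n I hmn]
    ring

theorem dens_insert_of_lt (hq : Loc q) (S I : Finset ℕ) (n : ℕ) (hS : ∀ x ∈ S, x < n) :
    dens q S (insert n I) = dens q S I := by
  unfold dens
  apply prod_congr rfl
  intro x hx
  have h1 : x ≠ n := (hS x hx).ne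
  rw [hq x n I (hS x hx).le]
  simp [h1]

/-- Change of measure. -/
theorem Ex_change (hq : Loc q) (h1 : ∀ x I, q x I ≠ 1) (S : Finset ℕ) (n : ℕ)
    (hS : S ⊆ range n) (f : Finset ℕ → ℝ) :
    Ex q n (fun I => dens q S I * f I) = Ex (off q S) n f := by
  have key : ∀ (n : ℕ) (f : Finset ℕ → ℝ),
      Ex q n (fun I => dens q (S.filter (· < n)) I * f I) = Ex (off q S) n f := by
    intro n
    induction n with
    | zero =>
      intro f
      simp [Ex, dens]
    | succ n ih =>
      intro f
      show Ex q n (fun I => q n I * (dens q (S.filter (· < n + 1)) (insert n I) * f (insert n I)) +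
        (1 - q n I) * (dens q (S.filter (· < n + 1)) I * f I)) =
        Ex (off q S) n (fun I => off q S n I * f (insert n I) + (1 - off q S n I) * f I)
      rw [← ih]
      apply Ex_congr
      intro I hIn
      by_cases hn : n ∈ S
      · have e1 : S.filter (· < n + 1) = insert n (S.filter (· < n)) := by
          ext x
          simp only [mem_filter, mem_insert]
          constructor
          · rintro ⟨hx, hlt⟩
            rcases Nat.lt_succ_iff_lt_or_eq.mp hlt with h | h
            · exact Or.inr ⟨hx, h⟩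
            · exact Or.inl h
          · rintro (rfl | ⟨hx, hlt⟩)
            · exact ⟨hn, Nat.lt_succ_self _⟩
            · exact ⟨hx, Nat.lt_succ_of_lt hlt⟩
        have e2 : n ∉ S.filter (· < n) := by simp
        have e3 : dens q (S.filter (· < n + 1)) (insert n I) = 0 := by
          unfold dens
          apply prod_eq_zero (i := n)
          · rw [e1]; exact mem_insert_self _ _
          · simp
        have e5 : off q S n I = 0 := by simp [off, hn]
        rw [e3, e5]
        have hI : n ∉ I := fun h => by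
          have := mem_range.mp (hIn h)
          omega
        have e4 : dens q (S.filter (· < n + 1)) I = (1 - q n I)⁻¹ * dens q (S.filter (· < n)) I := by
          unfold dens
          rw [e1, prod_insert e2]
          simp [hI]
        rw [e4]
        have h3 : 1 - q n I ≠ 0 := fun h => h1 n I (by linarith)
        field_simp
        ring
      · have e1 : S.filter (· < n + 1) = S.filter (· < n) := by
          ext x
          simp only [mem_filter]
          constructor
          · rintro ⟨hx, hlt⟩
            refine ⟨hx, ?_⟩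
            rcases Nat.lt_succ_iff_lt_or_eq.mp hlt with h | h
            · exact h
            · exact absurd (h ▸ hx) hn
          · rintro ⟨hx, hlt⟩
            exact ⟨hx, Nat.lt_succ_of_lt hlt⟩
        have e5 : off q S n I = q n I := by simp [off, hn]
        rw [e1, e5, dens_insert_of_lt hq _ _ _ (fun x hx => (mem_filter.mp hx).2)]
        ring
  have h2 : S.filter (· < n) = S := by
    apply filter_true_of_mem
    intro x hx
    exact mem_range.mp (hS hx)
  have := key n f
  rwa [h2] at this

/-! ### The process -/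

/-- Existence of the process (recursion on the vertex, for fixed `I`). -/
theorem Sys_exists (P : ℕ → Finset ℕ) (hP : ∀ v, P v ⊆ range v) (W δ : ℝ) (hW : 1 ≤ W)
    (hδ : 0 < δ) (h : δ * W ≤ 1 / 2) : ∃ p, Sys P W δ p := by
  classical
  have key : ∀ I : Finset ℕ, ∀ n : ℕ, ∃ f : ℕ → ℝ, ∀ v, v < n →
      f v = if (∏ x ∈ P v, if x ∈ I then 0 else (1 - f x)⁻¹) ≤ W then
        δ * (∏ x ∈ P v, if x ∈ I then 0 else (1 - f x)⁻¹) else 0 := by
    intro I n
    induction n with
    | zero => exact ⟨fun _ => 0, fun v hv => absurd hv (Nat.not_lt_zero v)⟩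
    | succ n ih =>
      obtain ⟨f, hf⟩ := ih
      refine ⟨Function.update f n (if (∏ x ∈ P n, if x ∈ I then 0 else (1 - f x)⁻¹) ≤ W then
        δ * (∏ x ∈ P n, if x ∈ I then 0 else (1 - f x)⁻¹) else 0), ?_⟩
      intro v hv
      have h1 : ∀ v, v ≤ n → (∏ x ∈ P v, if x ∈ I then (0 : ℝ) else (1 - Function.update f n
          (if (∏ x ∈ P n, if x ∈ I then 0 else (1 - f x)⁻¹) ≤ W then
            δ * (∏ x ∈ P n, if x ∈ I then 0 else (1 - f x)⁻¹) else 0) x)⁻¹) =
          ∏ x ∈ P v, if x ∈ I then 0 else (1 - f x)⁻¹ := by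
        intro v hv
        apply prod_congr rfl
        intro x hx
        have : x < v := mem_range.mp (hP v hx)
        rw [Function.update_of_ne (by omega)]
      rw [h1 v (by omega)]
      rcases Nat.lt_succ_iff_lt_or_eq.mp hv with hlt | heq
      · rw [Function.update_of_ne hlt.ne]
        exact hf v hlt
      · subst heq
        rw [Function.update_self]
  -- the functions for different `n` agree
  choose F hF using key
  have huniq : ∀ I : Finset ℕ, ∀ v n m : ℕ, v < n → v < m → F I n v = F I m v := by
    intro I v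
    induction v using Nat.strong_induction_on with
    | _ v ih =>
      intro n m hn hm
      rw [hF I n v hn, hF I m v hm]
      have h1 : (∏ x ∈ P v, if x ∈ I then (0 : ℝ) else (1 - F I n x)⁻¹) =
          ∏ x ∈ P v, if x ∈ I then 0 else (1 - F I m x)⁻¹ := by
        apply prod_congr rfl
        intro x hx
        have : x < v := mem_range.mp (hP v hx)
        rw [ih x this n m (by omega) (by omega)]
      rw [h1]
  refine ⟨fun v I => F I (v + 1) v, hP, hW, hδ, h, ?_⟩
  intro v I
  have h1 : dens (fun v I => F I (v + 1) v) (P v) I =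
      ∏ x ∈ P v, if x ∈ I then 0 else (1 - F I (v + 1) x)⁻¹ := by
    unfold dens
    apply prod_congr rfl
    intro x hx
    have : x < v := mem_range.mp (hP v hx)
    show (if x ∈ I then 0 else (1 - F I (x + 1) x)⁻¹) = _
    rw [huniq I x (x + 1) (v + 1) (by omega) (by omega)]
  rw [h1]
  exact hF I (v + 1) v (by omega)

variable {P : ℕ → Finset ℕ} {W δ : ℝ} {p : ℕ → Finset ℕ → ℝ}

theorem Sys.zero' (S : Sys P W δ p) (v : ℕ) (I : Finset ℕ) (h : ∃ u ∈ P v, u ∈ I) :
    dens p (P v) I = 0 := by
  obtain ⟨u, hu, hI⟩ := h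
  unfold dens
  apply prod_eq_zero hu
  simp [hI]

theorem Sys.zero (S : Sys P W δ p) (v : ℕ) (I : Finset ℕ) (h : ∃ u ∈ P v, u ∈ I) :
    p v I = 0 := by
  rw [S.eq, S.zero' v I h]
  simp

theorem Sys.bds (S : Sys P W δ p) (v : ℕ) (I : Finset ℕ) : 0 ≤ p v I ∧ p v I ≤ δ * W := by
  induction v using Nat.strong_induction_on with
  | _ v ih =>
    have h0 : 0 ≤ dens p (P v) I := by
      unfold dens
      apply prod_nonneg
      intro x hx
      have hlt : x < v := mem_range.mp (S.sub v hx)
      have := ih x hlt
      split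
      · exact le_refl _
      · apply inv_nonneg.mpr
        linarith [S.half]
    rw [S.eq]
    split
    · rename_i hle
      exact ⟨mul_nonneg S.pos.le h0, mul_le_mul_of_nonneg_left hle S.pos.le⟩
    · exact ⟨le_refl _, mul_nonneg S.pos.le (by linarith [S.one_le])⟩

theorem Sys.nonneg (S : Sys P W δ p) (v : ℕ) (I : Finset ℕ) : 0 ≤ p v I := (S.bds v I).1

theorem Sys.le (S : Sys P W δ p) (v : ℕ) (I : Finset ℕ) : p v I ≤ δ * W := (S.bds v I).2

theorem Sys.le_half (S : Sys P W δ p) (v : ℕ) (I : Finset ℕ) : p v I ≤ 1 / 2 :=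
  le_trans (S.le v I) S.half

theorem Sys.le_one (S : Sys P W δ p) (v : ℕ) (I : Finset ℕ) : p v I ≤ 1 := by
  linarith [S.le_half v I]

theorem Sys.ne_one (S : Sys P W δ p) (v : ℕ) (I : Finset ℕ) : p v I ≠ 1 := by
  have := S.le_half v I
  intro h
  linarith

theorem Sys.dens_nonneg (S : Sys P W δ p) (T I : Finset ℕ) : 0 ≤ dens p T I := by
  unfold dens
  apply prod_nonneg
  intro x _
  split
  · exact le_refl _
  · apply inv_nonneg.mpr
    linarith [S.le_half x I]

theorem Sys.le_dens (S : Sys P W δ p) (v : ℕ) (I : Finset ℕ) : p v I ≤ δ * dens p (P v) I := by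
  have h0 := S.dens_nonneg (P v) I
  rw [S.eq]
  split
  · exact le_refl _
  · exact mul_nonneg S.pos.le h0

theorem Sys.loc (S : Sys P W δ p) : Loc p := by
  intro x y I hxy
  induction x using Nat.strong_induction_on with
  | _ x ih =>
    have h1 : dens p (P x) (insert y I) = dens p (P x) I := by
      unfold dens
      apply prod_congr rfl
      intro z hz
      have hlt : z < x := mem_range.mp (S.sub x hz)
      rw [ih z hlt (by omega)]
      have hne : z ≠ y := by omega
      simp [hne]
    rw [S.eq x (insert y I), S.eq x I, h1]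

/-- The expected number of elements of `T` in the random set. -/
theorem Sys.first_le (S : Sys P W δ p) (T : Finset ℕ) (n : ℕ) :
    Ex p n (fun I => ((T ∩ I).card : ℝ)) ≤ δ * W * ((T ∩ range n).card : ℝ) := by
  induction n with
  | zero => simp [Ex]
  | succ n ih =>
    show Ex p n (fun I => p n I * ((T ∩ insert n I).card : ℝ) +
      (1 - p n I) * ((T ∩ I).card : ℝ)) ≤ _
    by_cases hn : n ∈ T
    · have h1 : ((T ∩ range (n + 1)).card : ℝ) = (T ∩ range n).card + 1 := by
        rw [range_add_one, inter_insert_of_mem hn, card_insert_of_notMem (by simp)]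
        push_cast
        ring
      rw [h1, mul_add, mul_one]
      have h2 : Ex p n (fun I => p n I * ((T ∩ insert n I).card : ℝ) +
          (1 - p n I) * ((T ∩ I).card : ℝ)) ≤ Ex p n (fun I => ((T ∩ I).card : ℝ) + δ * W) := by
        apply Ex_mono' p S.nonneg S.le_one
        intro I hI
        have hnI : n ∉ T ∩ I := fun h => by
          have := mem_range.mp (hI (mem_inter.mp h).2)
          omega
        rw [inter_insert_of_mem hn, card_insert_of_notMem hnI]
        push_cast
        have := S.le n I
        nlinarith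
      have h3 : Ex p n (fun I => ((T ∩ I).card : ℝ) + δ * W) =
          Ex p n (fun I => ((T ∩ I).card : ℝ)) + δ * W := by
        rw [Ex_add, Ex_const]
      linarith
    · have h1 : T ∩ range (n + 1) = T ∩ range n := by
        rw [range_add_one, inter_insert_of_notMem hn]
      rw [h1]
      refine le_trans (le_of_eq ?_) ih
      congr 1
      funext I
      rw [inter_insert_of_notMem hn]
      ring

/-- The second moment of the number of elements of `T` in the random set. -/
theorem Sys.second_le (S : Sys P W δ p) (T : Finset ℕ) (n : ℕ) :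
    Ex p n (fun I => ((T ∩ I).card : ℝ) ^ 2) ≤
      δ * W * ((T ∩ range n).card : ℝ) + (δ * W * ((T ∩ range n).card : ℝ)) ^ 2 := by
  have hδW : 0 ≤ δ * W := mul_nonneg S.pos.le (by linarith [S.one_le])
  induction n with
  | zero => simp [Ex]
  | succ n ih =>
    show Ex p n (fun I => p n I * ((T ∩ insert n I).card : ℝ) ^ 2 +
      (1 - p n I) * ((T ∩ I).card : ℝ) ^ 2) ≤ _
    by_cases hn : n ∈ T
    · have h1 : ((T ∩ range (n + 1)).card : ℝ) = (T ∩ range n).card + 1 := by
        rw [range_add_one, inter_insert_of_mem hn, card_insert_of_notMem (by simp)]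
        push_cast
        ring
      rw [h1]
      have h2 : Ex p n (fun I => p n I * ((T ∩ insert n I).card : ℝ) ^ 2 +
          (1 - p n I) * ((T ∩ I).card : ℝ) ^ 2) ≤
          Ex p n (fun I => ((T ∩ I).card : ℝ) ^ 2 + (2 * (δ * W) * ((T ∩ I).card : ℝ) + δ * W)) := by
        apply Ex_mono' p S.nonneg S.le_one
        intro I hI
        have hnI : n ∉ T ∩ I := fun h => by
          have := mem_range.mp (hI (mem_inter.mp h).2)
          omega
        rw [inter_insert_of_mem hn, card_insert_of_notMem hnI]
        push_cast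
        have h3 := S.le n I
        have h4 : (0 : ℝ) ≤ (T ∩ I).card := Nat.cast_nonneg _
        have h5 : p n I * (2 * ((T ∩ I).card : ℝ) + 1) ≤ δ * W * (2 * ((T ∩ I).card : ℝ) + 1) :=
          mul_le_mul_of_nonneg_right h3 (by linarith)
        nlinarith
      have h7 : Ex p n (fun I => ((T ∩ I).card : ℝ) ^ 2 +
          (2 * (δ * W) * ((T ∩ I).card : ℝ) + δ * W)) = Ex p n (fun I => ((T ∩ I).card : ℝ) ^ 2) +
          (2 * (δ * W) * Ex p n (fun I => ((T ∩ I).card : ℝ)) + δ * W) := by
        rw [Ex_add, Ex_add, Ex_const, Ex_mul]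
      rw [h7] at h2
      have h3 := S.first_le T n
      have h4 : 2 * (δ * W) * Ex p n (fun I => ((T ∩ I).card : ℝ)) ≤
          2 * (δ * W) * (δ * W * ((T ∩ range n).card : ℝ)) :=
        mul_le_mul_of_nonneg_left h3 (by linarith)
      have h5 : 0 ≤ (δ * W) ^ 2 := sq_nonneg _
      have h6 : δ * W * ((T ∩ range n).card + 1) + (δ * W * ((T ∩ range n).card + 1)) ^ 2 =
          (δ * W * (T ∩ range n).card + (δ * W * (T ∩ range n).card) ^ 2) +
          (2 * (δ * W) * (δ * W * ((T ∩ range n).card : ℝ)) + δ * W) + (δ * W) ^ 2 := by ring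
      rw [h6]
      linarith
    · have h1 : T ∩ range (n + 1) = T ∩ range n := by
        rw [range_add_one, inter_insert_of_notMem hn]
      rw [h1]
      refine le_trans (le_of_eq ?_) ih
      congr 1
      funext I
      rw [inter_insert_of_notMem hn]
      ring

theorem Sys.mem (S : Sys P W δ p) (v n : ℕ) (hv : v < n) :
    Ex p n (fun I => if v ∈ I then (1 : ℝ) else 0) = Ex p v (fun I => p v I) := by
  rw [Ex_loc p (v + 1) n hv]
  · show Ex p v (fun I => p v I * (if v ∈ insert v I then (1 : ℝ) else 0) +
      (1 - p v I) * (if v ∈ I then (1 : ℝ) else 0)) = _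
    apply Ex_congr
    intro I hI
    have h1 : v ∉ I := fun h => by
      have := mem_range.mp (hI h)
      omega
    simp [h1]
  · intro y I hy
    have : v ≠ y := by omega
    simp [this]

end Pool.Agent.Ram1
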