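import Mathlib

set_option autoImplicit false

/-!
# Ramsey numbers of graphs: definition and basic facts
-/

namespace Pool.Agent.Ram1

open Finset

/-- The diagonal Ramsey number `R(G)`: the least `n` such that every colouring of the edges of `K_n`
with two colours contains a monochromatic copy of `G`. A colouring is given by the graph `H` formed
by the edges of the first colour; the edges of the second colour form `Hᶜ`. -/
noncomputable def ramseyNumber {V : Type} (G : SimpleGraph V) : ℕ :=
  sInf {n : ℕ | ∀ H : SimpleGraph (Fin n), G.IsContained H ∨ G.IsContained Hᶜ}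

/-! ### Cliques inside finite sets -/

/-- `S` contains a clique of size `k` of the graph `H`. -/
def Cl {V : Type} (H : SimpleGraph V) (S : Finset V) (k : ℕ) : Prop :=
  ∃ s ⊆ S, s.card = k ∧ ∀ x ∈ s, ∀ y ∈ s, x ≠ y → H.Adj x y

theorem Cl.mono {V : Type} {H : SimpleGraph V} {S T : Finset V} {k : ℕ} (h : Cl H S k)
    (hST : S ⊆ T) : Cl H T k := by
  obtain ⟨s, h1, h2, h3⟩ := h
  exact ⟨s, h1.trans hST, h2, h3⟩

theorem Cl.le {V : Type} {H : SimpleGraph V} {S : Finset V} {k l : ℕ} (h : Cl H S k)
    (hl : l ≤ k) : Cl H S l := by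
  obtain ⟨s, h1, h2, h3⟩ := h
  obtain ⟨t, ht1, ht2⟩ := exists_subset_card_eq (s := s) (n := l) (by omega)
  exact ⟨t, ht1.trans h1, ht2, fun x hx y hy => h3 x (ht1 hx) y (ht1 hy)⟩

theorem Cl.insert {V : Type} {H : SimpleGraph V} {S T : Finset V} {k : ℕ} {v : V}
    (h : Cl H S k) (hST : S ⊆ T) (hv : v ∈ T) (hadj : ∀ x ∈ S, H.Adj v x) : Cl H T (k + 1) := by
  classical
  obtain ⟨s, h1, h2, h3⟩ := h
  have hvs : v ∉ s := fun hh => (H.loopless.irrefl v) (hadj v (h1 hh))
  refine ⟨Insert.insert v s, ?_, ?_, ?_⟩
  · intro x hx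
    rcases mem_insert.mp hx with rfl | hx
    · exact hv
    · exact hST (h1 hx)
  · rw [card_insert_of_notMem hvs, h2]
  · intro x hx y hy hxy
    rcases mem_insert.mp hx with hx' | hx' <;> rcases mem_insert.mp hy with hy' | hy'
    · exact absurd (hx'.trans hy'.symm) hxy
    · rw [hx']; exact hadj y (h1 hy')
    · rw [hy']; exact (hadj x (h1 hx')).symm
    · exact h3 x hx' y hy' hxy

/-- The Erdős–Szekeres bound. -/
theorem erdos_szekeres {V : Type} (H : SimpleGraph V) (n a b : ℕ) (hn : a + b ≤ n)
    (S : Finset V) (h : (a + b).choose a ≤ S.card) : Cl H S (a + 1) ∨ Cl Hᶜ S (b + 1) := by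
  classical
  induction n generalizing a b S with
  | zero =>
    have ha : a = 0 := by omega
    have hb : b = 0 := by omega
    subst ha; subst hb
    left
    obtain ⟨x, hx⟩ := card_pos.mp (lt_of_lt_of_le (by simp) h)
    refine ⟨{x}, by simpa using hx, by simp, ?_⟩
    intro y hy z hz hyz
    simp only [mem_singleton] at hy hz
    exact absurd (hy.trans hz.symm) hyz
  | succ n ih =>
    have hpos : 0 < S.card := lt_of_lt_of_le (Nat.choose_pos (by omega)) h
    obtain ⟨v, hv⟩ := card_pos.mp hpos
    rcases Nat.eq_zero_or_pos a with rfl | ha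
    · left
      refine ⟨{v}, by simpa using hv, by simp, ?_⟩
      intro y hy z hz hyz
      simp only [mem_singleton] at hy hz
      exact absurd (hy.trans hz.symm) hyz
    rcases Nat.eq_zero_or_pos b with rfl | hb
    · right
      refine ⟨{v}, by simpa using hv, by simp, ?_⟩
      intro y hy z hz hyz
      simp only [mem_singleton] at hy hz
      exact absurd (hy.trans hz.symm) hyz
    obtain ⟨a, rfl⟩ : ∃ a', a = a' + 1 := ⟨a - 1, by omega⟩
    obtain ⟨b, rfl⟩ : ∃ b', b = b' + 1 := ⟨b - 1, by omega⟩
    set A := S.filter (fun x => H.Adj v x) with hA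
    set B := S.filter (fun x => Hᶜ.Adj v x) with hB
    have hAB : S.card ≤ A.card + B.card + 1 := by
      have hsub : S ⊆ Insert.insert v (A ∪ B) := by
        intro x hx
        by_cases hxv : x = v
        · simp [hxv]
        · by_cases hadj : H.Adj v x
          · simp [hA, hx, hadj]
          · have : Hᶜ.Adj v x := by
              rw [SimpleGraph.compl_adj]
              exact ⟨fun h => hxv h.symm, hadj⟩
            exact mem_insert_of_mem (mem_union_right _ (mem_filter.mpr ⟨hx, this⟩))
      calc S.card ≤ (Insert.insert v (A ∪ B)).card := card_le_card hsub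
        _ ≤ (A ∪ B).card + 1 := card_insert_le _ _
        _ ≤ A.card + B.card + 1 := by
            have := card_union_le A B
            omega
    have hch : (a + 1 + (b + 1)).choose (a + 1) =
        (a + (b + 1)).choose a + (a + 1 + b).choose (a + 1) := by
      have : a + 1 + (b + 1) = (a + (b + 1)) + 1 := by ring
      rw [this, Nat.choose_succ_succ]
      have h2 : a + (b + 1) = a + 1 + b := by ring
      rw [h2]
    rw [hch] at h
    have hcase : (a + (b + 1)).choose a ≤ A.card ∨ (a + 1 + b).choose (a + 1) ≤ B.card := by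
      omega
    rcases hcase with hc | hc
    · rcases ih a (b + 1) (by omega) A hc with h1 | h1
      · left
        exact h1.insert (filter_subset _ _) hv (fun x hx => (mem_filter.mp hx).2)
      · right
        exact h1.mono (filter_subset _ _)
    · rcases ih (a + 1) b (by omega) B hc with h1 | h1
      · left
        exact h1.mono (filter_subset _ _)
      · right
        exact h1.insert (filter_subset _ _) hv (fun x hx => (mem_filter.mp hx).2)

theorem contained_top_iff {V : Type} [Fintype V] (H : SimpleGraph V) (k : ℕ) :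
    (⊤ : SimpleGraph (Fin k)).IsContained H ↔ Cl H univ k := by
  constructor
  · rintro ⟨f⟩
    refine ⟨univ.map ⟨f, f.injective⟩, subset_univ _, by simp, ?_⟩
    intro x hx y hy hxy
    obtain ⟨x', _, rfl⟩ := mem_map.mp hx
    obtain ⟨y', _, rfl⟩ := mem_map.mp hy
    have hne : x' ≠ y' := fun hh => hxy (by rw [hh])
    exact f.toHom.map_adj ((SimpleGraph.top_adj x' y').mpr hne)
  · rintro ⟨s, _, h2, h3⟩
    set e := s.equivFinOfCardEq h2 with he
    refine ⟨⟨⟨fun i => (e.symm i : V), ?_⟩, ?_⟩⟩
    · intro i j hij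
      rw [SimpleGraph.top_adj] at hij
      apply h3 _ (e.symm i).2 _ (e.symm j).2
      intro hh
      exact hij (e.symm.injective (Subtype.ext hh))
    · intro i j hij
      exact e.symm.injective (Subtype.ext hij)


theorem ramsey_exists {V : Type} [Finite V] (G : SimpleGraph V) :
    ∃ n : ℕ, ∀ H : SimpleGraph (Fin n), G.IsContained H ∨ G.IsContained Hᶜ := by
  classical
  have := Fintype.ofFinite V
  set k := Fintype.card V with hk
  refine ⟨(k + k).choose k, fun H => ?_⟩
  have hG : G.IsContained (⊤ : SimpleGraph (Fin k)) := by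
    refine ⟨⟨⟨Fintype.equivFin V, ?_⟩, (Fintype.equivFin V).injective⟩⟩
    intro a b hab
    rw [SimpleGraph.top_adj]
    exact fun hh => hab.ne ((Fintype.equivFin V).injective hh)
  rcases erdos_szekeres H (k + k) k k (le_refl _) univ (by simp) with h | h
  · exact Or.inl (hG.trans ((contained_top_iff _ _).mpr (h.le (by omega))))
  · exact Or.inr (hG.trans ((contained_top_iff _ _).mpr (h.le (by omega))))

theorem ramsey_upward {V : Type} (G : SimpleGraph V) {n m : ℕ} (hnm : n ≤ m)
    (h : ∀ H : SimpleGraph (Fin n), G.IsContained H ∨ G.IsContained Hᶜ)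
    (H : SimpleGraph (Fin m)) : G.IsContained H ∨ G.IsContained Hᶜ := by
  have key : ∀ K : SimpleGraph (Fin m), (K.comap (Fin.castLE hnm)).IsContained K := by
    intro K
    exact ⟨⟨⟨Fin.castLE hnm, fun hab => hab⟩, Fin.castLE_injective hnm⟩⟩
  have hc : (H.comap (Fin.castLE hnm))ᶜ = (Hᶜ).comap (Fin.castLE hnm) := by
    ext a b
    simp only [SimpleGraph.compl_adj, SimpleGraph.comap_adj]
    rw [(Fin.castLE_injective hnm).ne_iff]
  rcases h (H.comap (Fin.castLE hnm)) with h1 | h1
  · exact Or.inl (h1.trans (key H))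
  · rw [hc] at h1
    exact Or.inr (h1.trans (key Hᶜ))

/-- A colouring of `K_N` without monochromatic copies of `G` shows `N < R(G)`. -/
theorem lt_ramseyNumber {V : Type} [Finite V] (G : SimpleGraph V) {N : ℕ}
    (H : SimpleGraph (Fin N)) (h1 : ¬ G.IsContained H) (h2 : ¬ G.IsContained Hᶜ) :
    N < ramseyNumber G := by
  by_contra hcon
  have hmem : ramseyNumber G ∈
      {n : ℕ | ∀ H : SimpleGraph (Fin n), G.IsContained H ∨ G.IsContained Hᶜ} :=
    Nat.sInf_mem (ramsey_exists G)
  rcases ramsey_upward G (not_lt.mp hcon) hmem H with h | h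
  · exact h1 h
  · exact h2 h

end Pool.Agent.Ram1
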